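import Pool.Agent.Y453.Unicoh

/-!
# Two spheres touching at the poles, modulo the antipodal map

`X` is the union in three-space of the unit sphere and an oblate ellipsoid touching it exactly at the
two poles.  The antipodal map is free on `X`, and the quotient `Y` (realised by `x ↦ x xᵀ`) is the
one-point union of two real projective planes.  `X` is not unicoherent, `Y` is.
-/

set_option autoImplicit false

open Set Topology

namespace Pool.Agent.Y453

/-- the linear stretching `(a, b, c) ↦ (2a, 2b, c)` -/
noncomputable def stretch (x : E3) : E3 := !₂[2 * x 0, 2 * x 1, x 2]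

lemma stretch_continuous : Continuous stretch := by
  unfold stretch
  refine (PiLp.continuous_toLp 2 _).comp ?_
  refine continuous_pi fun i => ?_
  fin_cases i
  · exact (by fun_prop : Continuous fun p : E3 => 2 * p 0)
  · exact (by fun_prop : Continuous fun p : E3 => 2 * p 1)
  · exact (by fun_prop : Continuous fun p : E3 => p 2)

@[simp] lemma stretch_zero' (x : E3) : stretch x 0 = 2 * x 0 := rfl
@[simp] lemma stretch_one' (x : E3) : stretch x 1 = 2 * x 1 := rfl
@[simp] lemma stretch_two' (x : E3) : stretch x 2 = x 2 := rfl

/-- the parametrisation of the union of the sphere and the ellipsoid by two spheres -/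
noncomputable def par : S2 ⊕ S2 → E3 := Sum.elim (fun p => (p : E3)) (fun p => stretch p)

lemma par_continuous : Continuous par :=
  Continuous.sumElim (by fun_prop) (stretch_continuous.comp (by fun_prop))

/-- the space `X` -/
abbrev XX := Set.range par

/-- squaring map -/
noncomputable def sq (x : E3) : Fin 3 → Fin 3 → ℝ := fun i j => x i * x j

lemma sq_continuous : Continuous sq := by
  unfold sq
  fun_prop

lemma sq_neg (x : E3) : sq (-x) = sq x := by
  ext i j
  simp [sq]

lemma sq_eq_iff {x y : E3} : sq x = sq y ↔ x = y ∨ x = -y := by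
  constructor
  · intro h
    have hij : ∀ i j, x i * x j = y i * y j := fun i j => congrFun (congrFun h i) j
    by_cases h0 : ∀ k, x k = 0
    · left
      ext k
      have := hij k k
      rw [h0 k] at this ⊢
      have : y k * y k = 0 := by linarith
      exact (mul_self_eq_zero.mp this).symm
    · push Not at h0
      obtain ⟨k, hk⟩ := h0
      have hkk := hij k k
      rcases mul_self_eq_mul_self_iff.mp hkk with h1 | h1
      · left
        ext j
        have := hij k j
        rw [← h1] at this
        exact mul_left_cancel₀ hk this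
      · right
        ext j
        have := hij k j
        have h2 : y k = - x k := by linarith
        rw [h2] at this
        have h3 : x k * x j = x k * (- y j) := by linarith
        have := mul_left_cancel₀ hk h3
        simpa using this
  · rintro (rfl | rfl)
    · rfl
    · exact sq_neg y

/-- the space `Y` -/
abbrev YY := Set.range (fun x : XX => sq x)

/-- the double covering -/
noncomputable def cov : XX → YY := Set.rangeFactorization (fun x : XX => sq x)

lemma cov_surj : Function.Surjective cov := Set.rangeFactorization_surjective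

lemma cov_continuous : Continuous cov :=
  (sq_continuous.comp continuous_subtype_val).subtype_mk _

/-- the pole -/
noncomputable def pole : S2 := ⟨!₂[0, 0, 1], mem_sphere_of_sum_sq (by simp)⟩

lemma stretch_pole : stretch (pole : E3) = pole := by
  ext i; fin_cases i <;> simp [stretch, pole]

lemma stretch_neg (x : E3) : stretch (-x) = - stretch x := by
  ext i; fin_cases i <;> simp [stretch]

lemma stretch_injective : Function.Injective stretch := by
  intro x y h
  have h0 : 2 * x 0 = 2 * y 0 := congrFun (congrArg (fun z : E3 => (z : Fin 3 → ℝ)) h) 0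
  have h1 : 2 * x 1 = 2 * y 1 := congrFun (congrArg (fun z : E3 => (z : Fin 3 → ℝ)) h) 1
  have h2 : x 2 = y 2 := congrFun (congrArg (fun z : E3 => (z : Fin 3 → ℝ)) h) 2
  ext i; fin_cases i
  · change x 0 = y 0; linarith
  · change x 1 = y 1; linarith
  · exact h2

/-- sphere and ellipsoid meet only at the poles -/
lemma eq_stretch {p q : S2} (h : (p : E3) = stretch q) :
    (q : E3) = pole ∨ (q : E3) = -pole := by
  have hp := sum_sq_of_mem p
  have hq := sum_sq_of_mem q
  rw [h] at hp
  simp only [stretch_zero', stretch_one', stretch_two'] at hp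
  have hs : 3 * ((q : E3) 0 ^ 2 + (q : E3) 1 ^ 2) = 0 := by nlinarith
  have h0 : (q : E3) 0 = 0 := by nlinarith [sq_nonneg ((q : E3) 0), sq_nonneg ((q : E3) 1)]
  have h1 : (q : E3) 1 = 0 := by nlinarith [sq_nonneg ((q : E3) 0), sq_nonneg ((q : E3) 1)]
  have h2 : ((q : E3) 2) * ((q : E3) 2) = 1 := by rw [h0, h1] at hq; nlinarith
  rcases mul_self_eq_one_iff.mp h2 with h2 | h2
  · left
    ext i; fin_cases i
    · simpa [pole] using h0
    · simpa [pole] using h1
    · simpa [pole] using h2
  · right
    ext i; fin_cases i
    · simpa [pole] using h0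
    · simpa [pole] using h1
    · simpa [pole] using h2

instance : CompactSpace XX := isCompact_iff_compactSpace.mp (isCompact_range par_continuous)

/-- the parametrisation as a map onto `X` -/
noncomputable def parX : S2 ⊕ S2 → XX := Set.rangeFactorization par

lemma parX_surj : Function.Surjective parX := Set.rangeFactorization_surjective

lemma parX_continuous : Continuous parX := par_continuous.subtype_mk _

lemma parX_quot : IsQuotientMap parX :=
  (parX_continuous.isClosedMap).isQuotientMap parX_continuous parX_surj

instance factFinrank : Fact (Module.finrank ℝ E3 = 2 + 1) := ⟨by simp⟩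

instance : LocallyPathConnectedSpace S2 :=
  ChartedSpace.locallyPathConnectedSpace (EuclideanSpace ℝ (Fin 2)) S2

instance : LocallyPathConnectedSpace XX := parX_quot.locallyPathConnectedSpace

lemma S2_connected : ConnectedSpace S2 := by
  rw [← isConnected_iff_connectedSpace]
  apply isConnected_sphere _ _ zero_le_one
  rw [← Module.finrank_eq_rank]
  simp

/-- the round sphere inside `X` -/
def AA : Set XX := Set.range (fun p : S2 => parX (Sum.inl p))

/-- the ellipsoid inside `X` -/
def BB : Set XX := Set.range (fun p : S2 => parX (Sum.inr p))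

lemma AA_connected : IsConnected AA := by
  have := S2_connected
  exact isConnected_range (parX_continuous.comp continuous_inl)

lemma BB_connected : IsConnected BB := by
  have := S2_connected
  exact isConnected_range (parX_continuous.comp continuous_inr)

lemma AA_closed : IsClosed AA :=
  (isCompact_range (parX_continuous.comp continuous_inl)).isClosed

lemma BB_closed : IsClosed BB :=
  (isCompact_range (parX_continuous.comp continuous_inr)).isClosed

lemma AA_union_BB : AA ∪ BB = univ := by
  ext x
  simp only [mem_univ, iff_true]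
  obtain ⟨p, rfl⟩ := parX_surj x
  rcases p with p | p
  · exact Or.inl ⟨p, rfl⟩
  · exact Or.inr ⟨p, rfl⟩

lemma parX_inl_pole : parX (Sum.inl pole) = parX (Sum.inr pole) :=
  Subtype.ext (stretch_pole).symm

/-- the opposite pole -/
noncomputable def pole' : S2 := ⟨-pole, by
  rw [mem_sphere_zero_iff_norm, norm_neg]; exact mem_sphere_zero_iff_norm.mp pole.2⟩

lemma parX_inl_pole' : parX (Sum.inl pole') = parX (Sum.inr pole') := by
  apply Subtype.ext
  change -(pole : E3) = stretch (-(pole : E3))
  rw [stretch_neg, stretch_pole]

instance : ConnectedSpace XX := by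
  rw [connectedSpace_iff_univ, ← AA_union_BB]
  exact IsConnected.union ⟨parX (Sum.inl pole), ⟨pole, rfl⟩, ⟨pole, parX_inl_pole.symm⟩⟩
    AA_connected BB_connected

lemma not_connected_inter : ¬ IsConnected (AA ∩ BB) := by
  intro h
  have hc : Continuous (fun x : XX => (x : E3) 2) := by fun_prop
  have himg := h.isPreconnected.image _ hc.continuousOn
  have h1 : (1 : ℝ) ∈ (fun x : XX => (x : E3) 2) '' (AA ∩ BB) := by
    refine ⟨parX (Sum.inl pole), ⟨⟨pole, rfl⟩, ⟨pole, parX_inl_pole.symm⟩⟩, ?_⟩
    change (pole : E3) 2 = 1
    simp [pole]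
  have h2 : (-1 : ℝ) ∈ (fun x : XX => (x : E3) 2) '' (AA ∩ BB) := by
    refine ⟨parX (Sum.inl pole'), ⟨⟨pole', rfl⟩, ⟨pole', parX_inl_pole'.symm⟩⟩, ?_⟩
    change (-(pole : E3)) 2 = -1
    simp [pole]
  have h0 : (0 : ℝ) ∈ (fun x : XX => (x : E3) 2) '' (AA ∩ BB) :=
    himg.ordConnected.out h2 h1 (by norm_num)
  obtain ⟨x, ⟨⟨p, hp⟩, ⟨q, hq⟩⟩, hx⟩ := h0
  have hpq : (p : E3) = stretch q := by
    have := hp.trans hq.symm
    exact congrArg Subtype.val this
  have hxq : (x : E3) = stretch q := (congrArg Subtype.val hq).symm
  have hx' : (x : E3) 2 = 0 := hx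
  rw [hxq, stretch_two'] at hx'
  rcases eq_stretch hpq with h | h
  · rw [h] at hx'
    simp [pole] at hx'
  · rw [h] at hx'
    simp [pole] at hx'

/-- the composite parametrisation of `Y` -/
noncomputable def parY : S2 ⊕ S2 → YY := cov ∘ parX

lemma parY_continuous : Continuous parY := cov_continuous.comp parX_continuous

lemma parY_surj : Function.Surjective parY := cov_surj.comp parX_surj

lemma parY_quot : IsQuotientMap parY :=
  (parY_continuous.isClosedMap).isQuotientMap parY_continuous parY_surj

lemma cov_eq_iff {x y : XX} : cov x = cov y ↔ (x : E3) = y ∨ (x : E3) = -(y : E3) := by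
  rw [← sq_eq_iff]
  exact Subtype.ext_iff

lemma parY_eq_iff {x y : S2 ⊕ S2} : parY x = parY y ↔ par x = par y ∨ par x = -par y :=
  cov_eq_iff

lemma even_of_log {G : S2 → Circle} (hG : ∀ p : S2, G (-p) = G p) {θ : S2 → ℝ}
    (hθ : Continuous θ) (h : ∀ p, Circle.exp (θ p) = G p) (p : S2) : θ (-p) = θ p := by
  have := S2_connected
  have hn : Continuous (fun p : S2 => -p) := continuous_neg
  have := constOn_of_exp (f := fun p : S2 => θ (-p) - θ p) isPreconnected_univ
    ((hθ.comp hn).sub hθ).continuousOn (fun a _ => by
      rw [Circle.exp_sub, h, h, hG, div_self']) (mem_univ p) (mem_univ (-p))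
  simp only [neg_neg] at this
  linarith

/-- `Y` has logarithms. -/
theorem hasLog_YY : HasLog YY := by
  intro g
  let G : C(S2 ⊕ S2, Circle) := g.comp ⟨parY, parY_continuous⟩
  let G₁ : C(S2, Circle) := ⟨fun p => G (Sum.inl p), G.continuous.comp continuous_inl⟩
  let G₂ : C(S2, Circle) := ⟨fun p => G (Sum.inr p), G.continuous.comp continuous_inr⟩
  have hG₁ : ∀ p : S2, G₁ (-p) = G₁ p := by
    intro p
    change g (parY _) = g (parY _)
    congr 1
    rw [parY_eq_iff]
    right
    rfl
  have hG₂ : ∀ p : S2, G₂ (-p) = G₂ p := by
    intro p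
    change g (parY _) = g (parY _)
    congr 1
    rw [parY_eq_iff]
    right
    change stretch (-(p : E3)) = -stretch p
    exact stretch_neg _
  obtain ⟨θ₁, hθ₁⟩ := hasLog_S2 G₁
  obtain ⟨θ₂, hθ₂⟩ := hasLog_S2 G₂
  have he₁ := fun p => even_of_log hG₁ θ₁.continuous hθ₁ p
  have he₂ := fun p => even_of_log hG₂ θ₂.continuous hθ₂ p
  set c : ℝ := θ₁ pole - θ₂ pole with hc
  have hpole : parY (Sum.inl pole) = parY (Sum.inr pole) := by
    change cov _ = cov _
    rw [parX_inl_pole]
  have hexpc : Circle.exp c = 1 := by
    rw [hc, Circle.exp_sub, hθ₁, hθ₂]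
    change g (parY (Sum.inl pole)) / g (parY (Sum.inr pole)) = 1
    rw [hpole, div_self']
  let Θ : S2 ⊕ S2 → ℝ := Sum.elim θ₁ (fun p => θ₂ p + c)
  have hΘc : Continuous Θ := Continuous.sumElim θ₁.continuous (θ₂.continuous.add continuous_const)
  have hneg : ∀ p q : S2, (p : E3) = q ∨ (p : E3) = -(q : E3) → p = q ∨ p = -q := by
    rintro p q (h | h)
    · exact Or.inl (Subtype.ext h)
    · exact Or.inr (Subtype.ext h)
  have hcross : ∀ p q : S2, ((p : E3) = stretch q ∨ (p : E3) = - stretch q) →
      θ₁ p = θ₂ q + c := by
    intro p q h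
    have key : ∀ p' q' : S2, (p' : E3) = stretch q' → θ₁ p' = θ₂ q' + c := by
      intro p' q' h'
      rcases eq_stretch h' with h1 | h1
      · have hq' : q' = pole := Subtype.ext h1
        have hp' : p' = pole := Subtype.ext (by rw [h', h1, stretch_pole])
        rw [hq', hp', hc]; ring
      · have hq' : q' = -pole := Subtype.ext h1
        have hp' : p' = -pole := Subtype.ext (by
          rw [h', h1, stretch_neg, stretch_pole]; rfl)
        rw [hq', hp', he₁, he₂, hc]; ring
    rcases h with h | h
    · exact key p q h
    · have := key (-p) q (by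
        change -(p : E3) = stretch q
        rw [h, neg_neg])
      rw [← this, he₁]
  have hfib : ∀ a b : S2 ⊕ S2, parY a = parY b → Θ a = Θ b := by
    intro a b hab
    rw [parY_eq_iff] at hab
    rcases a with p | p <;> rcases b with q | q
    · change θ₁ p = θ₁ q
      rcases hneg p q hab with h | h
      · rw [h]
      · rw [h, he₁]
    · exact hcross p q hab
    · refine (hcross q p ?_).symm
      rcases hab with h | h
      · exact Or.inl h.symm
      · right
        change stretch p = -(q : E3) at h
        rw [h, neg_neg]
    · change θ₂ p + c = θ₂ q + c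
      have hab' : (p : E3) = q ∨ (p : E3) = -(q : E3) := by
        rcases hab with h | h
        · left; exact stretch_injective h
        · right
          apply stretch_injective
          rw [stretch_neg]
          exact h
      rcases hneg p q hab' with h | h
      · rw [h]
      · rw [h, he₂]
  -- descend
  refine ⟨⟨fun y => Θ (Function.surjInv parY_surj y), ?_⟩, ?_⟩
  · rw [parY_quot.continuous_iff]
    convert hΘc using 1
    ext a
    exact hfib _ _ (Function.surjInv_eq parY_surj (parY a))
  · intro y
    change Circle.exp (Θ (Function.surjInv parY_surj y)) = g y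
    obtain ⟨a, rfl⟩ := parY_surj y
    rw [hfib _ a (Function.surjInv_eq parY_surj (parY a))]
    rcases a with p | p
    · exact hθ₁ p
    · change Circle.exp (θ₂ p + c) = _
      rw [Circle.exp_add, hexpc, mul_one]
      exact hθ₂ p

lemma neg_mem_XX (x : XX) : -(x : E3) ∈ XX := by
  obtain ⟨p, hp⟩ := x.2
  rcases p with p | p
  · refine ⟨Sum.inl (-p), ?_⟩
    rw [← hp]; rfl
  · refine ⟨Sum.inr (-p), ?_⟩
    rw [← hp]
    change stretch (-(p : E3)) = -stretch p
    exact stretch_neg _

lemma cov_quot : IsQuotientMap cov :=
  (cov_continuous.isClosedMap).isQuotientMap cov_continuous cov_surj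

lemma cov_isOpenMap : IsOpenMap cov := by
  intro U hU
  rw [← cov_quot.isOpen_preimage]
  let ν : XX → XX := fun x => ⟨-(x : E3), neg_mem_XX x⟩
  have hν : Continuous ν := (continuous_subtype_val.neg).subtype_mk _
  have : cov ⁻¹' (cov '' U) = U ∪ ν ⁻¹' U := by
    ext x
    constructor
    · rintro ⟨y, hy, hxy⟩
      rcases cov_eq_iff.mp hxy with h | h
      · left
        rwa [← (Subtype.ext h : y = x)]
      · right
        change ν x ∈ U
        rwa [← (Subtype.ext h : y = ν x)]
    · rintro (h | h)
      · exact ⟨x, h, rfl⟩
      · exact ⟨ν x, h, cov_eq_iff.mpr (Or.inr rfl)⟩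
  rw [this]
  exact hU.union (hU.preimage hν)

lemma XX_ne_zero (x : XX) : (x : E3) ≠ 0 := by
  intro h
  obtain ⟨p, hp⟩ := x.2
  rcases p with p | p
  · have hs := sum_sq_of_mem p
    have : (p : E3) = 0 := hp.trans h
    rw [this] at hs
    simp at hs
  · have hs := sum_sq_of_mem p
    have h0 : stretch p = 0 := hp.trans h
    have : (p : E3) = 0 := stretch_injective (h0.trans (by ext i; fin_cases i <;> simp [stretch]))
    rw [this] at hs
    simp at hs

/-- `cov` is a local homeomorphism. -/
theorem cov_isLocalHomeomorph : IsLocalHomeomorph cov := by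
  rw [isLocalHomeomorph_iff_isOpenEmbedding_restrict]
  intro x
  let U : Set XX := {y | 0 < inner ℝ (x : E3) (y : E3)}
  have hUo : IsOpen U := isOpen_lt continuous_const (by fun_prop)
  have hxU : x ∈ U := by
    change 0 < inner ℝ (x : E3) (x : E3)
    exact real_inner_self_pos.mpr (XX_ne_zero x)
  refine ⟨U, hUo.mem_nhds hxU, ?_⟩
  apply IsOpenEmbedding.of_continuous_injective_isOpenMap
  · exact cov_continuous.comp continuous_subtype_val
  · rintro ⟨y, hy⟩ ⟨z, hz⟩ h
    have h' : cov y = cov z := h
    rcases cov_eq_iff.mp h' with h1 | h1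
    · exact Subtype.ext (Subtype.ext h1)
    · exfalso
      have hy' : 0 < inner ℝ (x : E3) (y : E3) := hy
      have hz' : 0 < inner ℝ (x : E3) (z : E3) := hz
      rw [h1, inner_neg_right] at hy'
      linarith
  · exact cov_isOpenMap.domRestrict hUo

end Pool.Agent.Y453
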