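import Mathlib

/-!
# Unicoherence from logarithms, and the 2-sphere

* `HasLog Y`: every continuous map from `Y` to the circle has a continuous real logarithm.
* `inter_connected_of_hasLog`: a connected normal space with `HasLog` is unicoherent.
* `hasLog_sphere`: the two-sphere has logarithms.
-/

set_option autoImplicit false

open Set Topology

namespace Pool.Agent.Y453

/-- Every continuous map to the circle has a real logarithm. -/
def HasLog (Y : Type*) [TopologicalSpace Y] : Prop :=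
  ∀ g : C(Y, Circle), ∃ θ : C(Y, ℝ), ∀ y, Circle.exp (θ y) = g y

/-- a continuous function on a preconnected set whose exponentials are all equal is constant. -/
lemma constOn_of_exp {A : Type*} [TopologicalSpace A] {s : Set A} (hs : IsPreconnected s)
    {f : A → ℝ} (hf : ContinuousOn f s) (h : ∀ a ∈ s, Circle.exp (f a) = 1)
    {a b : A} (ha : a ∈ s) (hb : b ∈ s) : f a = f b :=
  Circle.isCoveringMap_exp.constOn_of_comp hs hf
    (fun a ha a' ha' => by rw [h a ha, h a' ha']) ha hb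

/-- In a connected normal space with logarithms, two closed connected sets covering the space have
connected intersection. -/
theorem inter_connected_of_hasLog {Y : Type*} [TopologicalSpace Y] [NormalSpace Y]
    [PreconnectedSpace Y] (hY : HasLog Y) {A B : Set Y} (hA : IsClosed A) (hB : IsClosed B)
    (hAc : IsConnected A) (hBc : IsConnected B) (hAB : A ∪ B = univ) :
    IsConnected (A ∩ B) := by
  classical
  constructor
  · -- nonempty
    have h := isPreconnected_closed_iff.mp (isPreconnected_univ (α := Y)) A B hA hB hAB.ge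
      (by rw [univ_inter]; exact hAc.nonempty) (by rw [univ_inter]; exact hBc.nonempty)
    rwa [univ_inter] at h
  · rw [isPreconnected_closed_iff]
    intro t t' ht ht' hsub hne hne'
    by_contra hcon
    rw [not_nonempty_iff_eq_empty] at hcon
    set H : Set Y := (A ∩ B) ∩ t with hH
    set K : Set Y := (A ∩ B) ∩ t' with hK
    have hHc : IsClosed H := (hA.inter hB).inter ht
    have hKc : IsClosed K := (hA.inter hB).inter ht'
    have hdisj : Disjoint H K := by
      rw [Set.disjoint_iff_inter_eq_empty, ← hcon]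
      ext x; simp only [hH, hK, mem_inter_iff]; tauto
    obtain ⟨u, hu0, hu1, -⟩ := exists_continuous_zero_one_of_isClosed hHc hKc hdisj
    let g0 : Y → Circle := fun x =>
      if x ∈ A then Circle.exp (Real.pi * u x) else Circle.exp (-(Real.pi * u x))
    have hgA : EqOn g0 (fun x => Circle.exp (Real.pi * u x)) A := fun x hx => if_pos hx
    have hgB : EqOn g0 (fun x => Circle.exp (-(Real.pi * u x))) B := by
      intro x hx
      by_cases hxA : x ∈ A
      · have hxx : x ∈ t ∪ t' := hsub ⟨hxA, hx⟩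
        rw [hgA hxA]
        rcases hxx with hxt | hxt
        · have : u x = 0 := hu0 (show x ∈ H from ⟨⟨hxA, hx⟩, hxt⟩)
          simp [this]
        · have : u x = 1 := hu1 (show x ∈ K from ⟨⟨hxA, hx⟩, hxt⟩)
          simp only [this, mul_one]
          rw [Circle.exp_neg, eq_comm, inv_eq_iff_mul_eq_one, ← Circle.exp_add, ← two_mul]
          exact Circle.exp_two_pi
      · exact if_neg hxA
    have hg0 : Continuous g0 := by
      have hcA : ContinuousOn g0 A := by
        refine ContinuousOn.congr ?_ hgA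
        exact (Continuous.continuousOn (by fun_prop))
      have hcB : ContinuousOn g0 B := by
        refine ContinuousOn.congr ?_ hgB
        exact (Continuous.continuousOn (by fun_prop))
      rw [← continuousOn_univ, ← hAB]
      exact hcA.union_of_isClosed hcB hA hB
    obtain ⟨θ, hθ⟩ := hY ⟨g0, hg0⟩
    obtain ⟨h, hh⟩ := hne
    obtain ⟨k, hk⟩ := hne'
    have huh : u h = 0 := hu0 (show h ∈ H from hh)
    have huk : u k = 1 := hu1 (show k ∈ K from hk)
    have h1 : θ h - Real.pi * u h = θ k - Real.pi * u k := by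
      apply constOn_of_exp (f := fun x => θ x - Real.pi * u x) hAc.isPreconnected
        (Continuous.continuousOn (by fun_prop)) _ hh.1.1 hk.1.1
      intro a ha
      rw [Circle.exp_sub, hθ a]
      change g0 a / _ = 1
      rw [hgA ha, div_self']
    have h2 : θ h + Real.pi * u h = θ k + Real.pi * u k := by
      apply constOn_of_exp (f := fun x => θ x + Real.pi * u x) hBc.isPreconnected
        (Continuous.continuousOn (by fun_prop)) _ hh.1.2 hk.1.2
      intro a ha
      rw [Circle.exp_add, hθ a]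
      change g0 a * _ = 1
      rw [hgB ha, ← Circle.exp_add]
      simp
    rw [huh, huk] at h1 h2
    have := Real.pi_pos
    linarith

/-- Euclidean three-space. -/
abbrev E3 := EuclideanSpace ℝ (Fin 3)

/-- Euclidean plane. -/
abbrev E2 := EuclideanSpace ℝ (Fin 2)

/-- The two-sphere. -/
abbrev S2 := Metric.sphere (0 : E3) 1

lemma sum_sq_of_mem (x : S2) : (x : E3) 0 ^ 2 + (x : E3) 1 ^ 2 + (x : E3) 2 ^ 2 = 1 := by
  have h := mem_sphere_zero_iff_norm.mp x.2
  rw [EuclideanSpace.norm_eq, Real.sqrt_eq_one] at h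
  simpa [Fin.sum_univ_three] using h

lemma mem_sphere_of_sum_sq {x : E3} (h : x 0 ^ 2 + x 1 ^ 2 + x 2 ^ 2 = 1) :
    x ∈ Metric.sphere (0 : E3) 1 := by
  rw [mem_sphere_zero_iff_norm, EuclideanSpace.norm_eq, Real.sqrt_eq_one]
  simpa [Fin.sum_univ_three] using h

/-- The plane mapped onto a hemisphere: clamp to the unit disk, then lift with sign `s`. -/
noncomputable def hemi (s : ℝ) (p : ℝ × ℝ) : E3 :=
  !₂[p.1 / max 1 (Real.sqrt (p.1 ^ 2 + p.2 ^ 2)), p.2 / max 1 (Real.sqrt (p.1 ^ 2 + p.2 ^ 2)),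
    s * Real.sqrt (1 - (p.1 / max 1 (Real.sqrt (p.1 ^ 2 + p.2 ^ 2))) ^ 2
      - (p.2 / max 1 (Real.sqrt (p.1 ^ 2 + p.2 ^ 2))) ^ 2)]

lemma hemi_continuous (s : ℝ) : Continuous (hemi s) := by
  have hpos : ∀ p : ℝ × ℝ, max 1 (Real.sqrt (p.1 ^ 2 + p.2 ^ 2)) ≠ 0 := by
    intro p
    have : (1:ℝ) ≤ max 1 (Real.sqrt (p.1 ^ 2 + p.2 ^ 2)) := le_max_left _ _
    intro h
    linarith
  have h1 : Continuous fun p : ℝ × ℝ => p.1 / max 1 (Real.sqrt (p.1 ^ 2 + p.2 ^ 2)) :=
    Continuous.div (by fun_prop) (by fun_prop) hpos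
  have h2 : Continuous fun p : ℝ × ℝ => p.2 / max 1 (Real.sqrt (p.1 ^ 2 + p.2 ^ 2)) :=
    Continuous.div (by fun_prop) (by fun_prop) hpos
  unfold hemi
  refine (PiLp.continuous_toLp 2 _).comp ?_
  refine continuous_pi fun i => ?_
  fin_cases i
  · exact h1
  · exact h2
  · exact continuous_const.mul (((continuous_const.sub (h1.pow 2)).sub (h2.pow 2)).sqrt)

lemma hemi_mem (s : ℝ) (hs : s ^ 2 = 1) (p : ℝ × ℝ) : hemi s p ∈ Metric.sphere (0 : E3) 1 := by
  apply mem_sphere_of_sum_sq
  set m := max 1 (Real.sqrt (p.1 ^ 2 + p.2 ^ 2)) with hm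
  have hm1 : 1 ≤ m := le_max_left _ _
  have hm2 : Real.sqrt (p.1 ^ 2 + p.2 ^ 2) ≤ m := le_max_right _ _
  have hm3 : p.1 ^ 2 + p.2 ^ 2 ≤ m ^ 2 := by
    rw [← Real.sqrt_le_left (by linarith)]
    exact hm2
  have hnn : 0 ≤ 1 - (p.1 / m) ^ 2 - (p.2 / m) ^ 2 := by
    have hm0 : 0 < m ^ 2 := by positivity
    have : (p.1 / m) ^ 2 + (p.2 / m) ^ 2 ≤ 1 := by
      rw [div_pow, div_pow, ← add_div, div_le_one hm0]
      exact hm3
    linarith
  have e0 : (hemi s p) 0 = p.1 / m := rfl
  have e1 : (hemi s p) 1 = p.2 / m := rfl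
  have e2 : (hemi s p) 2 = s * Real.sqrt (1 - (p.1 / m) ^ 2 - (p.2 / m) ^ 2) := rfl
  rw [e0, e1, e2, mul_pow, hs, Real.sq_sqrt hnn]
  ring

lemma hemi_eq (s : ℝ) (x : S2) (hx : (x : E3) 2 = s * |(x : E3) 2|) :
    hemi s ((x : E3) 0, (x : E3) 1) = x := by
  have hsum := sum_sq_of_mem x
  have hle : Real.sqrt ((x : E3) 0 ^ 2 + (x : E3) 1 ^ 2) ≤ 1 := by
    refine Real.sqrt_le_iff.mpr ⟨zero_le_one, ?_⟩
    nlinarith [sq_nonneg ((x : E3) 2)]
  have hmax : max 1 (Real.sqrt ((x : E3) 0 ^ 2 + (x : E3) 1 ^ 2)) = 1 := max_eq_left hle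
  have h3 : 1 - (x : E3) 0 ^ 2 - (x : E3) 1 ^ 2 = (x : E3) 2 ^ 2 := by linarith
  ext i
  fin_cases i
  · change (x : E3) 0 / max 1 (Real.sqrt ((x : E3) 0 ^ 2 + (x : E3) 1 ^ 2)) = (x : E3) 0
    rw [hmax, div_one]
  · change (x : E3) 1 / max 1 (Real.sqrt ((x : E3) 0 ^ 2 + (x : E3) 1 ^ 2)) = (x : E3) 1
    rw [hmax, div_one]
  · change s * Real.sqrt (1 - ((x : E3) 0 / max 1 (Real.sqrt ((x : E3) 0 ^ 2 + (x : E3) 1 ^ 2))) ^ 2
      - ((x : E3) 1 / max 1 (Real.sqrt ((x : E3) 0 ^ 2 + (x : E3) 1 ^ 2))) ^ 2) = (x : E3) 2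
    rw [hmax, div_one, div_one, h3, Real.sqrt_sq_eq_abs]
    exact hx.symm

/-- On each closed hemisphere a circle-valued map has a logarithm. -/
lemma exists_log_hemi (s : ℝ) (hs : s ^ 2 = 1) (G : C(S2, Circle)) :
    ∃ θ : S2 → ℝ, Continuous θ ∧ ∀ x : S2, (x : E3) 2 = s * |(x : E3) 2| →
      Circle.exp (θ x) = G x := by
  let F : C(ℝ × ℝ, Circle) :=
    ⟨fun p => G ⟨hemi s p, hemi_mem s hs p⟩,
      G.continuous.comp ((hemi_continuous s).subtype_mk _)⟩
  have he₀ : Circle.exp (Complex.arg (F (0, 0))) = F (0, 0) := Circle.exp_arg _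
  obtain ⟨Θ, ⟨-, hΘ⟩, -⟩ :=
    Circle.isCoveringMap_exp.existsUnique_continuousMap_lifts F (0, 0) _ he₀
  refine ⟨fun x => Θ ((x : E3) 0, (x : E3) 1), ?_, ?_⟩
  · refine Θ.continuous.comp ?_
    refine Continuous.prodMk ?_ ?_
    · exact (by fun_prop : Continuous fun x : S2 => (x : E3) 0)
    · exact (by fun_prop : Continuous fun x : S2 => (x : E3) 1)
  · intro x hx
    have := congrFun hΘ ((x : E3) 0, (x : E3) 1)
    simp only [Function.comp_apply] at this
    rw [this]
    change G ⟨hemi s ((x : E3) 0, (x : E3) 1), _⟩ = G x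
    congr 1
    exact Subtype.ext (hemi_eq s x hx)

/-- The equator. -/
lemma equator_connected : IsConnected {x : S2 | (x : E3) 2 = 0} := by
  have hS1 : IsConnected (Metric.sphere (0 : E2) 1) := by
    apply isConnected_sphere _ _ zero_le_one
    rw [← Module.finrank_eq_rank]
    simp
  let c : E2 → E3 := fun p => !₂[p 0, p 1, 0]
  have hc : Continuous c := by
    refine (PiLp.continuous_toLp 2 _).comp ?_
    refine continuous_pi fun i => ?_
    fin_cases i
    · exact (by fun_prop : Continuous fun p : E2 => p 0)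
    · exact (by fun_prop : Continuous fun p : E2 => p 1)
    · exact continuous_const
  have hmem : ∀ p ∈ Metric.sphere (0 : E2) 1, c p ∈ Metric.sphere (0 : E3) 1 := by
    intro p hp
    apply mem_sphere_of_sum_sq
    rw [mem_sphere_zero_iff_norm, EuclideanSpace.norm_eq, Real.sqrt_eq_one] at hp
    have hp' : p 0 ^ 2 + p 1 ^ 2 = 1 := by simpa [Fin.sum_univ_two] using hp
    have e0 : (c p) 0 = p 0 := rfl
    have e1 : (c p) 1 = p 1 := rfl
    have e2 : (c p) 2 = 0 := rfl
    rw [e0, e1, e2]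
    linarith
  have himg : IsConnected (c '' Metric.sphere (0 : E2) 1) := hS1.image c hc.continuousOn
  have hsub : c '' Metric.sphere (0 : E2) 1 ⊆ Set.range (Subtype.val : S2 → E3) := by
    rintro _ ⟨p, hp, rfl⟩
    exact ⟨⟨c p, hmem p hp⟩, rfl⟩
  have heq : Subtype.val '' {x : S2 | (x : E3) 2 = 0} = c '' Metric.sphere (0 : E2) 1 := by
    ext y
    constructor
    · rintro ⟨x, hx, rfl⟩
      refine ⟨!₂[(x : E3) 0, (x : E3) 1], ?_, ?_⟩
      · rw [mem_sphere_zero_iff_norm, EuclideanSpace.norm_eq, Real.sqrt_eq_one]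
        have := sum_sq_of_mem x
        have hx' : (x : E3) 2 = 0 := hx
        rw [hx'] at this
        simpa [Fin.sum_univ_two] using this
      · ext i
        fin_cases i
        · rfl
        · rfl
        · exact (show (x : E3) 2 = 0 from hx).symm
    · rintro ⟨p, hp, rfl⟩
      exact ⟨⟨c p, hmem p hp⟩, rfl, rfl⟩
  rw [← heq] at himg
  exact ⟨himg.nonempty.of_image, (Topology.IsInducing.subtypeVal.isPreconnected_image).mp
    himg.isPreconnected⟩

/-- The two-sphere has logarithms. -/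
theorem hasLog_S2 : HasLog S2 := by
  intro G
  obtain ⟨θ₁, hθ₁c, hθ₁⟩ := exists_log_hemi 1 (by norm_num) G
  obtain ⟨θ₂, hθ₂c, hθ₂⟩ := exists_log_hemi (-1) (by norm_num) G
  obtain ⟨x₀, hx₀⟩ := equator_connected.nonempty
  have hx₀' : (x₀ : E3) 2 = 0 := hx₀
  set c : ℝ := θ₁ x₀ - θ₂ x₀ with hc
  -- on the equator the two logarithms differ by `c`
  have heq : ∀ x : S2, (x : E3) 2 = 0 → θ₁ x = θ₂ x + c := by
    intro x hx
    have h := constOn_of_exp (f := fun x => θ₁ x - θ₂ x) equator_connected.isPreconnected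
      (hθ₁c.sub hθ₂c).continuousOn (fun a ha => by
        have ha' : (a : E3) 2 = 0 := ha
        rw [Circle.exp_sub, hθ₁ a (by rw [ha']; simp), hθ₂ a (by rw [ha']; simp), div_self'])
      (show x ∈ {x : S2 | (x : E3) 2 = 0} from hx) hx₀
    rw [hc]; linarith
  have hexpc : Circle.exp c = 1 := by
    rw [hc, Circle.exp_sub, hθ₁ x₀ (by rw [hx₀']; simp), hθ₂ x₀ (by rw [hx₀']; simp), div_self']
  let Θ : S2 → ℝ := fun x => if 0 ≤ (x : E3) 2 then θ₁ x else θ₂ x + c
  have hΘ : Continuous Θ := by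
    apply Continuous.if_le hθ₁c (hθ₂c.add continuous_const) continuous_const
      (by fun_prop : Continuous fun x : S2 => (x : E3) 2)
    intro x hx
    exact heq x hx.symm
  refine ⟨⟨Θ, hΘ⟩, fun x => ?_⟩
  change Circle.exp (if 0 ≤ (x : E3) 2 then θ₁ x else θ₂ x + c) = G x
  split_ifs with h
  · exact hθ₁ x (by rw [one_mul, abs_of_nonneg h])
  · rw [Circle.exp_add, hexpc, mul_one]
    exact hθ₂ x (by rw [abs_of_neg (not_le.mp h)]; ring)

end Pool.Agent.Y453
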